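import Pool.Agent.MP_856573_co.H74.Bas

/-!
From a layout to a drawing with one bend per edge.
-/

namespace Pool.Agent.MP_856573_co.H74

open Set
open Pool.Agent.MP_856573_co.H90 (OneBend IsFree chain CrossingFree)

namespace Draw

/-- A function that is strictly increasing on a finite set of naturals extends. -/
theorem extend (f : ℕ → ℝ) (I : Finset ℕ) :
    StrictMonoOn f I → ∃ X : ℕ → ℝ, StrictMono X ∧ ∀ i ∈ I, X i = f i := by
  induction I using Finset.induction_on_max with
  | empty => exact fun _ => ⟨fun n => n, fun a b h => by simpa using h, by simp⟩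
  | insert a I ha ih =>
    intro hf
    rcases I.eq_empty_or_nonempty with rfl | hne
    · refine ⟨fun n => f a + n - a, fun x y h => ?_, by simp⟩
      have : (x : ℝ) < y := by exact_mod_cast h
      simp only
      linarith
    · obtain ⟨X, hX, hXf⟩ := ih (hf.mono (by simp))
      set m := I.max' hne with hm
      have hmI : m ∈ I := I.max'_mem hne
      have hma : m < a := ha m hmI
      have hfa : f m < f a := hf (by simp [hmI]) (by simp) hma
      have hd : (0 : ℝ) < (a : ℝ) - m := by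
        have : (m : ℝ) < a := by exact_mod_cast hma
        linarith
      have hc : 0 < (f a - f m) / ((a : ℝ) - m) := div_pos (by linarith) hd
      refine ⟨fun n => if n ≤ m then X n else f m + (f a - f m) / ((a : ℝ) - m) * (n - m),
        strictMono_nat_of_lt_succ fun n => ?_, fun i hi => ?_⟩
      · by_cases h1 : n + 1 ≤ m
        · simp only [h1, (by omega : n ≤ m), if_true]
          exact hX (by omega)
        · by_cases h2 : n ≤ m
          · have : n = m := by omega
            subst this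
            simp only [h1, if_false, le_refl, if_true, hXf _ hmI]
            push_cast
            linarith
          · simp only [h1, h2, if_false]
            push_cast
            nlinarith
      · rcases Finset.mem_insert.1 hi with rfl | hi
        · simp only [not_le.2 hma, if_false]
          field_simp
          ring
        · have hi' : i ≤ m := I.le_max' i hi
          simp only [hi', if_true, hXf i hi]

/-- The only point of the axis on a segment from a point off the axis. -/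
theorem axis {z u : ℝ × ℝ} {a : ℝ} (hz : z.2 ≠ 0) (hu : u ∈ segment ℝ z (a, 0)) (h0 : u.2 = 0) :
    u = (a, 0) := by
  obtain ⟨s, t, -, -, hst, rfl⟩ := hu
  have hs : s = 0 := by simpa [hz] using h0
  have ht : t = 1 := by linarith
  simp [hs, ht]

/-- Two segments from a point off the axis to different points of the axis. -/
theorem fan {z u : ℝ × ℝ} {a b : ℝ} (hz : z.2 ≠ 0) (hab : a ≠ b) (hu : u ∈ segment ℝ z (a, 0))
    (hv : u ∈ segment ℝ z (b, 0)) : u = z := by
  obtain ⟨s, t, -, -, hst, rfl⟩ := hu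
  obtain ⟨s', t', -, -, hst', h⟩ := hv
  have h2 := congrArg Prod.snd h
  have h1 := congrArg Prod.fst h
  simp only [Prod.snd_add, Prod.smul_snd, smul_eq_mul, mul_zero, add_zero, Prod.fst_add,
    Prod.smul_fst] at h1 h2
  have hs : s' = s := mul_right_cancel₀ hz h2
  have ht : t' = t := by linarith
  subst hs ht
  have h3 : t' * (b - a) = 0 := by linarith
  have ht0 : t' = 0 := (mul_eq_zero.1 h3).resolve_right (sub_ne_zero.2 hab.symm)
  have hs1 : s' = 1 := by linarith
  simp [ht0, hs1]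

theorem split {p q r u : ℝ × ℝ} (hr : r ∈ segment ℝ p q) (hu : u ∈ segment ℝ p q) :
    u ∈ segment ℝ p r ∪ segment ℝ q r := by
  rw [segment_eq_image_lineMap] at hr
  obtain ⟨c, -, rfl⟩ := hr
  rw [← insert_endpoints_openSegment] at hu
  rcases hu with rfl | rfl | hu
  · exact Or.inl (left_mem_segment ℝ _ _)
  · exact Or.inr (left_mem_segment ℝ _ _)
  · rcases openSegment_subset_union (𝕜 := ℝ) p q ⟨c, rfl⟩ hu with rfl | h | h
    · exact Or.inl (right_mem_segment ℝ _ _)
    · exact Or.inl (openSegment_subset_segment ℝ _ _ h)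
    · exact Or.inr (by rw [segment_symm]; exact openSegment_subset_segment ℝ _ _ h)

theorem off {O : Type} {X : ℕ → ℝ} {sd : O → Bool} {At : O → Finset ℕ} {tie : O → Option (O × ℕ)}
    {p0 : O → ℝ × ℝ} (h : Rl X sd At tie p0) (o : O) : (p0 o).2 ≠ 0 := by
  intro h0
  have := h.side o
  simp [h0] at this

/-- The bend `b` serves the edge from `p` to `q` inside the set `S`. -/
def Bn (p q b : ℝ × ℝ) (S : Set (ℝ × ℝ)) : Prop :=
  segment ℝ p b ∩ segment ℝ b q = {b} ∧ segment ℝ p b ∪ segment ℝ b q ⊆ S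

theorem Bn.symm {p q b : ℝ × ℝ} {S : Set (ℝ × ℝ)} (h : Bn p q b S) : Bn q p b S := by
  obtain ⟨h1, h2⟩ := h
  refine ⟨?_, ?_⟩
  · rw [segment_symm ℝ q b, segment_symm ℝ b p, inter_comm]; exact h1
  · rw [segment_symm ℝ q b, segment_symm ℝ b p, union_comm]; exact h2

theorem Bn.mk' {p q b : ℝ × ℝ} {S : Set (ℝ × ℝ)}
    (h1 : ∀ u ∈ segment ℝ p b, u ∈ segment ℝ b q → u = b) (h2 : segment ℝ p b ⊆ S)
    (h3 : segment ℝ b q ⊆ S) : Bn p q b S := by
  refine ⟨?_, union_subset h2 h3⟩
  ext u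
  refine ⟨fun h => h1 u h.1 h.2, ?_⟩
  rintro rfl
  exact ⟨right_mem_segment ℝ _ _, left_mem_segment ℝ _ _⟩

section

variable {V O : Type} [DecidableEq V] {G : SimpleGraph V} {Hb : Finset V} {N : ℕ} {ix : V → ℕ}
  {sd : O → Bool} {At : O → Finset ℕ} {tie : O → Option (O × ℕ)} {hub : V → O}
  {Sg : Sym2 V → Set (O × ℕ)} {X : ℕ → ℝ} {p0 : O → ℝ × ℝ}

/-- The positions of the vertices. -/
def ps (Hb : Finset V) (ix : V → ℕ) (hub : V → O) (X : ℕ → ℝ) (p0 : O → ℝ × ℝ) (v : V) : ℝ × ℝ :=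
  if v ∈ Hb then p0 (hub v) else (X (ix v), 0)

/-- The union of the segments of an edge. -/
def un (X : ℕ → ℝ) (p0 : O → ℝ × ℝ) (T : Set (O × ℕ)) : Set (ℝ × ℝ) :=
  {u | ∃ x ∈ T, u ∈ segment ℝ (p0 x.1) (X x.2, 0)}

theorem hs_bend (hL : Lay G Hb N ix sd At tie hub Sg) (hX : StrictMono X)
    (hR : Rl X sd At tie p0) {h x : V} (ha : G.Adj h x) (hh : h ∈ Hb) (hx : x ∉ Hb)
    (hs : HS ix tie hub Sg h x) :
    ∃ b, Bn (ps Hb ix hub X p0 h) (ps Hb ix hub X p0 x) b (un X p0 (Sg s(h, x))) := by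
  simp only [ps, hh, hx, if_true, if_false]
  rcases hs with hs | ⟨z, p, ht, hp, hs⟩
  · refine ⟨(X (ix x), 0), Bn.mk' (fun u _ h2 => by simpa using h2) ?_ ?_⟩
    · exact fun u hu => ⟨(hub h, ix x), by simp [hs], hu⟩
    · intro u hu
      rw [segment_same] at hu
      exact ⟨(hub h, ix x), by simp [hs], by rw [hu]; exact right_mem_segment ℝ _ _⟩
  · obtain ⟨hsd, -, hph, -, -⟩ := hL.wk.tie z _ p ht
    have hxz : ix x ∈ At z := hL.mem s(h, x) ha (z, ix x) (by simp [hs])
    have hne : hub h ≠ z := fun e => hsd (by rw [e])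
    refine ⟨p0 z, Bn.mk' (fun u h1 h2 => ?_) (fun u hu => ?_) ?_⟩
    · rcases split (hR.tie z _ p ht) h1 with h3 | h3
      · exact absurd (hR.nc _ _ hne p hph _ hxz u h3 h2).1 hp
      · exact fan (off hR z) (hX.injective.ne hp) h3 h2
    · rcases split (hR.tie z _ p ht) hu with h3 | h3
      · exact ⟨(hub h, p), by simp [hs], h3⟩
      · exact ⟨(z, p), by simp [hs], h3⟩
    · exact fun u hu => ⟨(z, ix x), by simp [hs], hu⟩

theorem bend (hL : Lay G Hb N ix sd At tie hub Sg) (hX : StrictMono X)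
    (hR : Rl X sd At tie p0) {u v : V} (ha : G.Adj u v) :
    ∃ b, Bn (ps Hb ix hub X p0 u) (ps Hb ix hub X p0 v) b (un X p0 (Sg s(u, v))) := by
  rcases hL.shape u v ha with ⟨hu, hv, z, hs⟩ | ⟨hu, hv, hs⟩ | ⟨hv, hu, hs⟩ | ⟨hu, hv, p, hs⟩
  · simp only [ps, hu, hv, if_false]
    have hne : ix u ≠ ix v := fun e => ha.ne (hL.ixi u hu v hv e)
    refine ⟨p0 z, Bn.mk' (fun w h1 h2 => ?_) (fun w hw => ?_) ?_⟩
    · rw [segment_symm] at h1
      exact fan (off hR z) (hX.injective.ne hne) h1 h2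
    · rw [segment_symm] at hw
      exact ⟨(z, ix u), by simp [hs], hw⟩
    · exact fun w hw => ⟨(z, ix v), by simp [hs], hw⟩
  · exact hs_bend hL hX hR ha hu hv hs
  · obtain ⟨b, hb⟩ := hs_bend hL hX hR ha.symm hv hu hs
    exact ⟨b, by rw [Sym2.eq_swap]; exact hb.symm⟩
  · simp only [ps, hu, hv, if_true]
    have hne : hub u ≠ hub v := fun e => ha.ne (hL.hubi u hu v hv e)
    have h1 : p ∈ At (hub u) := hL.mem s(u, v) ha (hub u, p) (by simp [hs])
    have h2 : p ∈ At (hub v) := hL.mem s(u, v) ha (hub v, p) (by simp [hs])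
    refine ⟨(X p, 0), Bn.mk' (fun w h3 h4 => ?_) (fun w hw => ?_) (fun w hw => ?_)⟩
    · rw [segment_symm] at h4
      exact (hR.nc _ _ hne p h1 p h2 w h3 h4).2
    · exact ⟨(hub u, p), by simp [hs], hw⟩
    · rw [segment_symm] at hw
      exact ⟨(hub v, p), by simp [hs], hw⟩

/-- An object does not lie on a segment of another object. -/
theorem obj_not (hW : Wk N sd At tie) (hR : Rl X sd At tie p0) {o o' : O} {b : ℕ} (hb : b ∈ At o')
    (h : p0 o ∈ segment ℝ (p0 o') (X b, 0)) : o = o' := by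
  by_contra hne
  obtain ⟨a, ha⟩ : (At o).Nonempty := Finset.card_pos.1 (by have := hW.two o; omega)
  have := (hR.nc o o' hne a ha b hb _ (left_mem_segment ℝ _ _) h).2
  exact off hR o (by rw [this])

theorem oneBend (hL : Lay G Hb N ix sd At tie hub Sg) (hX : StrictMono X)
    (hR : Rl X sd At tie p0) : OneBend G (ps Hb ix hub X p0) := by
  have hB : ∀ e : Sym2 V, ∃ b, ∀ u v, G.Adj u v → s(u, v) = e →
      Bn (ps Hb ix hub X p0 u) (ps Hb ix hub X p0 v) b (un X p0 (Sg s(u, v))) := by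
    intro e
    induction e using Sym2.ind with
    | _ a c =>
      by_cases ha : G.Adj a c
      · obtain ⟨b, hb⟩ := bend hL hX hR ha
        refine ⟨b, fun u v _ he => ?_⟩
        rcases Sym2.eq_iff.1 he with ⟨rfl, rfl⟩ | ⟨rfl, rfl⟩
        · exact hb
        · rw [Sym2.eq_swap]; exact hb.symm
      · refine ⟨0, fun u v huv he => absurd ?_ ha⟩
        rcases Sym2.eq_iff.1 he with ⟨rfl, rfl⟩ | ⟨rfl, rfl⟩
        · exact huv
        · exact huv.symm
  choose B hB using hB
  have hc : ∀ u v, G.Adj u v → chain (ps Hb ix hub X p0) (fun u v => B s(u, v)) u v ⊆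
      un X p0 (Sg s(u, v)) := fun u v h => (hB _ u v h rfl).2
  refine ⟨fun u v => B s(u, v), fun u v h => ⟨congrArg B Sym2.eq_swap, (hB _ u v h rfl).1⟩,
    fun u v h => ?_, fun u v w ha hw => ?_, fun u v u' v' ha ha' hne p hp hp' => ?_⟩
  · by_cases hu : u ∈ Hb <;> by_cases hv : v ∈ Hb <;> simp only [ps, hu, hv, if_true, if_false] at h
    · obtain ⟨a, ha⟩ : (At (hub v)).Nonempty :=
        Finset.card_pos.1 (by have := hL.wk.two (hub v); omega)
      exact hL.hubi u hu v hv (obj_not hL.wk hR ha (by rw [h]; exact left_mem_segment ℝ _ _))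
    · exact absurd (by rw [h]) (off hR (hub u))
    · exact absurd (by rw [← h]) (off hR (hub v))
    · exact hL.ixi u hu v hv (hX.injective (congrArg Prod.fst h))
  · obtain ⟨x, hx, hw⟩ := hc u v ha hw
    have hv := hL.vx s(u, v) ha x hx
    rw [← Sym2.mem_iff]
    by_cases hh : w ∈ Hb <;> simp only [ps, hh, if_true, if_false] at hw
    · exact hv.2 w hh (obj_not hL.wk hR (hL.mem s(u, v) ha x hx) hw).symm
    · exact hv.1 w hh (hX.injective (congrArg Prod.fst (axis (off hR x.1) hw rfl))).symm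
  · obtain ⟨x, hx, hp⟩ := hc u v ha hp
    obtain ⟨y, hy, hp'⟩ := hc u' v' ha' hp'
    have he := hL.ex s(u, v) ha s(u', v') ha' hne x hx y hy
    by_cases hxy : x.1 = y.1
    · obtain ⟨h2, w, hw, h3, h4, h5⟩ := he.1 hxy
      refine ⟨w, Sym2.mem_iff.1 h3, Sym2.mem_iff.1 h4, ?_⟩
      rw [← hxy] at hp'
      simp only [ps, hw, if_true, ← h5]
      exact fan (off hR x.1) (hX.injective.ne h2) hp hp'
    · obtain ⟨h1, h2⟩ := hR.nc _ _ hxy _ (hL.mem s(u, v) ha x hx) _ (hL.mem s(u', v') ha' y hy) p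
        hp hp'
      obtain ⟨w, hw, h3, h4, h5⟩ := he.2 h1
      refine ⟨w, Sym2.mem_iff.1 h3, Sym2.mem_iff.1 h4, ?_⟩
      simp only [ps, hw, if_false, ← h5, h2]

end

end Draw

theorem draw : StmtDRAW := by
  intro hFO hGOR hGEO V O _ _ _ G Hb N ix sd At tie hub Sg hL
  obtain ⟨rk, L, R, par, hF⟩ := hFO O N sd At tie hL.wk
  set I : Finset ℕ := (Finset.univ \ Hb).image ix with hI
  have hcard : I.card = Fintype.card V - Hb.card := by
    rw [hI, Finset.card_image_of_injOn, Finset.card_univ_sdiff]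
    intro a ha b hb h
    exact hL.ixi a (by simpa using ha) b (by simpa using hb) h
  have hv : ∀ i, ∃ w, w ∉ Hb ∧ ix w = I.orderEmbOfFin hcard i := fun i => by
    obtain ⟨w, hw, h⟩ := Finset.mem_image.1 (I.orderEmbOfFin_mem hcard i)
    exact ⟨w, by simpa using hw, h⟩
  choose v hv1 hv2 using hv
  refine ⟨v, fun i j h => (I.orderEmbOfFin hcard).injective (by rw [← hv2, ← hv2, h]),
    fun x hx => ?_⟩
  obtain ⟨X, hX, hXf⟩ := Draw.extend (Function.extend (I.orderEmbOfFin hcard) x 0) I (by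
    intro a ha b hb hab
    rw [← I.range_orderEmbOfFin hcard] at ha hb
    obtain ⟨i, rfl⟩ := ha
    obtain ⟨j, rfl⟩ := hb
    rw [(I.orderEmbOfFin hcard).injective.extend_apply,
      (I.orderEmbOfFin hcard).injective.extend_apply]
    exact hx ((I.orderEmbOfFin hcard).lt_iff_lt.1 hab))
  obtain ⟨ψ, hψ⟩ := hGOR O N sd At tie rk L R par X hL.wk hF hX
  obtain ⟨p0, hR⟩ := hGEO O N sd At tie rk L R par X ψ hL.wk hF hX hψ
  refine ⟨_, Draw.oneBend hL hX hR, fun i => ?_⟩
  simp only [Draw.ps, hv1 i, if_false, hv2 i]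
  rw [hXf _ (I.orderEmbOfFin_mem hcard i), (I.orderEmbOfFin hcard).injective.extend_apply]

end Pool.Agent.MP_856573_co.H74
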